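import Mathlib
import Pool.Agent.H836_SV.Lines

/-!
# MP_16c41e_an, Q1: spectral variation for normal matrices with spectra on crossing segments

The answer is yes: if `A`, `B` are normal `n × n` matrices whose spectra lie on crossing segments,
then the spectral distance of `A` and `B` is at most the operator norm of `A - B`.

Sketch of the proof. Let `p` be the crossing point, `A = p + u H`, `B = p + u' S` with `H`, `S`
Hermitian and `u`, `u'` unit. Up to a sign `u' = e^{iθ} u` with `sin θ > 0`. With
`δ = ‖A - B‖ = ‖H - e^{iθ} S‖` the matrix `N = -i (H - e^{iθ} S)ᴴ / δ` is a contraction with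
`Re N = (sin θ / δ) S` and `Re (e^{iθ} N) = (sin θ / δ) H`. For a unit `ζ` outside of the spectrum
of `N` there are a contraction `Γ` and unit numbers `z k` with
`N = ζ (1 - Γᴴ Γ) + Γᴴ diag(z) Γ` (Cayley transform). This gives, for any family of pairwise
disjoint caps of the unit circle missing `ζ`, that the numbers of eigenvalues of the
corresponding real parts of `N` in the caps add up to at most `n`. A count with at most four caps
then verifies Hall's condition for the relation `|h - e^{iθ} s| ≤ δ` between the eigenvalues of
`H` and those of `S`.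
-/

set_option autoImplicit false

namespace Pool.Agent.Results.MP_16c41e_an.CrossingSegments

/-- The segments `[p, q]` and `[p', q']` cross: they are not parallel (the directions `q - p` and
`q' - p'` are linearly independent over the reals), and they meet in a single point, which lies in
the relative interior of each. -/
def Cross (p q p' q' : ℂ) : Prop :=
  ((starRingEnd ℂ) (q - p) * (q' - p')).im ≠ 0 ∧
    ∃ z : ℂ, segment ℝ p q ∩ segment ℝ p' q' = {z} ∧ z ∈ openSegment ℝ p q ∧
      z ∈ openSegment ℝ p' q'

/-- `α` lists the eigenvalues of `A` with multiplicity. -/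
def Lists {n : ℕ} (A : Matrix (Fin n) (Fin n) ℂ) (α : Fin n → ℂ) : Prop :=
  A.charpoly = ∏ k, (Polynomial.X - Polynomial.C (α k))

/-- The spectral distance of two lists: the minimum over the permutations `σ` of the maximum over
`k` of `|α k - β (σ k)|`. -/
noncomputable def sd {n : ℕ} (α β : Fin n → ℂ) : ℝ :=
  ⨅ σ : Equiv.Perm (Fin n), ⨆ k : Fin n, ‖α k - β (σ k)‖

/-- The operator norm of a matrix acting on the Euclidean space `ℂⁿ` (the largest singular
value). -/
noncomputable def opNorm {n : ℕ} (M : Matrix (Fin n) (Fin n) ℂ) : ℝ :=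
  ‖Matrix.toEuclideanCLM (n := Fin n) (𝕜 := ℂ) M‖

theorem mem_line {p q z : ℂ} (hz : z ∈ segment ℝ p q) : ∃ t : ℝ, z = p + t * (q - p) := by
  obtain ⟨a, b, -, -, hab, rfl⟩ := hz
  refine ⟨b, ?_⟩
  have : a = 1 - b := by linarith
  rw [this, Complex.real_smul, Complex.real_smul]
  push_cast
  ring

/-- **Theorem.** Let `A`, `B` be normal `n × n` matrices whose spectra lie on crossing segments.
Then the spectral distance of `A` and `B` is at most the operator norm of `A - B`. -/
theorem result (n : ℕ) (A B : Matrix (Fin n) (Fin n) ℂ) (hA : IsStarNormal A)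
    (hB : IsStarNormal B) (pA qA pB qB : ℂ) (hcross : Cross pA qA pB qB)
    (hsA : spectrum ℂ A ⊆ segment ℝ pA qA) (hsB : spectrum ℂ B ⊆ segment ℝ pB qB)
    (α β : Fin n → ℂ) (hα : Lists A α) (hβ : Lists B β) :
    sd α β ≤ opNorm (A - B) := by
  obtain ⟨σ, hσ⟩ := H836_SV.two_lines hA hB hcross.1 (fun z hz => mem_line (hsA hz))
    (fun z hz => mem_line (hsB hz)) hα hβ
  refine le_trans (ciInf_le (Set.finite_range _).bddBelow σ) ?_
  exact Real.iSup_le (fun k => hσ k) (norm_nonneg _)

end Pool.Agent.Results.MP_16c41e_an.CrossingSegments
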